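import Pool.Agent.Helper66.KF.Trans
import Pool.Agent.Helper38.ZS2.Stmts

/-!
# `ST_PIECE2`: a bad vector has a bad piece, with cheap coordinates
-/

namespace Pool.Agent.Helper66.KF

open Finset Pool.Agent.Helper38.ZS Pool.Agent.Helper38.ZS2
open scoped Classical

noncomputable section

theorem sum_compl_split {ι : Type} [Fintype ι] (V W : Finset ι) (h : Disjoint V W) (ψ : ι → ℝ) :
    ∑ i ∈ Vᶜ, ψ i = ∑ i ∈ (V ∪ W)ᶜ, ψ i + ∑ i ∈ W, ψ i := by
  have h1 : Vᶜ = (V ∪ W)ᶜ ∪ W := by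
    ext i
    simp only [mem_compl, mem_union, not_or]
    constructor
    · intro hi
      by_cases hw : i ∈ W
      · exact Or.inr hw
      · exact Or.inl ⟨hi, hw⟩
    · rintro (hi | hi)
      · exact hi.1
      · exact fun hv => (Finset.disjoint_left.mp h hv) hi
  have h2 : Disjoint (V ∪ W)ᶜ W := by
    rw [Finset.disjoint_left]
    intro i hi hw
    rw [mem_compl] at hi
    exact hi (mem_union_right _ hw)
  rw [h1, Finset.sum_union h2]

theorem filter_compl_split {ι : Type} [Fintype ι] (V W : Finset ι) (h : Disjoint V W)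
    (p : ι → Prop) (φ : ι → ℝ) :
    ∑ i ∈ Vᶜ.filter p, φ i = ∑ i ∈ (V ∪ W)ᶜ.filter p, φ i + ∑ i ∈ W.filter p, φ i := by
  rw [Finset.sum_filter, Finset.sum_filter, Finset.sum_filter]
  exact sum_compl_split V W h _

theorem filter_univ_split {ι : Type} [Fintype ι] (V : Finset ι) (p : ι → Prop) (φ : ι → ℝ) :
    ∑ i ∈ univ.filter p, φ i = ∑ i ∈ V.filter p, φ i + ∑ i ∈ Vᶜ.filter p, φ i := by
  rw [Finset.sum_filter, Finset.sum_filter, Finset.sum_filter]
  exact (Finset.sum_add_sum_compl V _).symm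

theorem sum_sub_compl {ι : Type} [Fintype ι] {X W : Finset ι} (h : Disjoint X W) (g g' : ι → ℝ) :
    ∑ i ∈ X, (g' i - g i) ^ 2 ≤ ∑ i ∈ Wᶜ, (g' i - g i) ^ 2 := by
  apply Finset.sum_le_sum_of_subset_of_nonneg
  · intro i hi
    rw [mem_compl]
    exact fun hw => (Finset.disjoint_left.mp h hi) hw
  · intro i _ _
    positivity

theorem two_rpow_small {h : ℤ} (hh : |(h : ℝ)| ≤ 40) : (2 : ℝ) ^ (|(h : ℝ)| / 40) ≤ 2 := by
  have h6 : |(h : ℝ)| / 40 ≤ 1 := by linarith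
  have h7 := Real.rpow_le_rpow_of_exponent_le (by norm_num : (1 : ℝ) ≤ 2) h6
  rwa [Real.rpow_one] at h7

theorem st_piece2 (hLEV : ST_LEVEL2) (hPROF : ST_PROF) (hQU : ST_QUANT) (hPART : ST_PART) :
    ST_PIECE2 := by
  obtain ⟨C0, hC0, hlev⟩ := hLEV
  obtain ⟨D0, hD0, hprof⟩ := hPROF
  intro β hβ hβ1
  have hCD : 1 ≤ D0 * C0 := one_le_mul_of_one_le_of_one_le hD0 hC0
  have hC00 : 0 < C0 := by linarith
  have hD00 : 0 < D0 := by linarith
  have hCβ : 1 ≤ C0 / β := by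
    rw [le_div_iff₀ hβ]
    linarith
  refine ⟨96 * (64 * C0 / β) / β, ?_, ?_⟩
  · rw [le_div_iff₀ hβ]
    have : 64 * C0 / β = 64 * (C0 / β) := by ring
    rw [this]
    linarith
  intro ε hε hε1
  set e0 : ℝ := ε * β / 192 with he0
  have he0p : 0 < e0 := by positivity
  have he01 : e0 ≤ 1 := by
    rw [he0]
    linarith [mul_le_one₀ hε1 hβ.le hβ1]
  set t : ℝ := e0 * β / (16 * (D0 * C0)) with ht
  have ht0 : 0 < t := by positivity
  have hte : 4 * (D0 * C0) * t / β = e0 / 4 := by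
    rw [ht]
    field_simp
    ring
  have ht1 : t ≤ 1 := by
    rw [ht, div_le_one (by positivity)]
    linarith [mul_le_one₀ he01 hβ.le hβ1]
  set γ : ℝ := t ^ 2 / 2 with hγdef
  have hγ : 0 < γ := by positivity
  have hγ2 : 2 * γ ≤ 1 := by
    rw [hγdef]
    linarith [pow_le_one₀ (n := 2) ht0.le ht1]
  have hγ1 : γ ≤ 1 := by linarith
  have hsq : Real.sqrt (2 * γ) = t := by
    rw [hγdef]
    have : 2 * (t ^ 2 / 2) = t ^ 2 := by ring
    rw [this]
    exact Real.sqrt_sq ht0.le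
  set c1 : ℝ := 20 * (D0 * C0) / (γ * β) with hc1
  have hc1one : 1 ≤ c1 := by
    rw [hc1, le_div_iff₀ (by positivity)]
    linarith [mul_le_one₀ hγ1 hβ.le hβ1]
  have hc10 : 0 < c1 := by linarith
  refine ⟨γ, γ * ε * β / (7680 * c1), 96 * c1 / β, hγ, hγ1, by positivity, ?_, ?_, ?_⟩
  · rw [div_le_one (by positivity)]
    have h1 : γ * ε * β ≤ 1 := by
      have h2 : γ * ε ≤ 1 := mul_le_one₀ hγ1 hε.le hε1
      exact mul_le_one₀ h2 hβ.le hβ1
    linarith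
  · rw [le_div_iff₀ hβ]
    linarith
  intro L hL
  have hL0 : 0 < L := by linarith
  set a : ℝ := β ^ 2 / (256 * C0) with ha
  have ha0 : 0 < a := by positivity
  set δ : ℝ := min (min (β / 32 / (1 / (4 * a) + 2)) (e0 / 20)) (min (γ ^ 2 / (9 * L)) 1) with hδ
  have hδ0 : 0 < δ := by
    rw [hδ]
    refine lt_min (lt_min (by positivity) (by positivity)) (lt_min (by positivity) one_pos)
  have hδa : (1 / (4 * a) + 2) * δ ≤ β / 32 := by
    have h1 : δ ≤ β / 32 / (1 / (4 * a) + 2) := (min_le_left _ _).trans (min_le_left _ _)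
    rw [le_div_iff₀ (by positivity)] at h1
    linarith
  have hδe : δ ≤ e0 / 20 := (min_le_left _ _).trans (min_le_right _ _)
  have hδγ : δ ≤ γ ^ 2 / (9 * L) := (min_le_right _ _).trans (min_le_left _ _)
  have hδ1 : δ ≤ 1 := (min_le_right _ _).trans (min_le_right _ _)
  have hδL : 8 / γ ^ 2 * δ + δ ≤ 1 / L := by
    have h1 : δ ≤ 1 / γ ^ 2 * δ := by
      have h2 : 1 ≤ 1 / γ ^ 2 := by
        rw [le_div_iff₀ (by positivity)]
        linarith [pow_le_one₀ (n := 2) hγ.le hγ1]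
      exact le_mul_of_one_le_left hδ0.le h2
    have h2 : 9 / γ ^ 2 * δ ≤ 9 / γ ^ 2 * (γ ^ 2 / (9 * L)) :=
      mul_le_mul_of_nonneg_left hδγ (by positivity)
    have h3 : 9 / γ ^ 2 * (γ ^ 2 / (9 * L)) = 1 / L := by
      field_simp
    have h4 : 8 / γ ^ 2 * δ + 1 / γ ^ 2 * δ = 9 / γ ^ 2 * δ := by ring
    linarith
  obtain ⟨θ0, hθ0, hθ1, hquant⟩ := hQU (δ / C0) γ (by positivity) hγ hγ1
  refine ⟨θ0, hθ0, hθ1, ?_⟩
  intro ι _ P V W th B f ξ hP hVW hCh hf hξ hbad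
  -- level
  obtain ⟨w, hw0, hwW, hwQ⟩ : ∃ w : ι → ℝ, (∀ i, 0 ≤ w i) ∧
      (∀ i ∈ W, w i = th i ^ (1 / 200 : ℝ)) ∧ (∀ i ∈ (V ∪ W)ᶜ, w i = L) := by
    refine ⟨fun i => if i ∈ W then th i ^ (1 / 200 : ℝ) else L, ?_, ?_, ?_⟩
    · intro i
      by_cases hi : i ∈ W
      · simp only [hi, if_true]
        exact Real.rpow_nonneg (hCh.pos i hi).le _
      · simp only [hi, if_false]
        exact hL0.le
    · intro i hi
      simp [hi]
    · intro i hi
      have : i ∉ W := by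
        rw [mem_compl, mem_union, not_or] at hi
        exact hi.2
      simp [this]
  have hbad' : β * l1 f V + ∑ i ∈ Vᶜ, w i * |f i| < ∑ i ∈ V, ξ i * f i := by
    rw [sum_compl_split V W hVW]
    have h1 : ∑ i ∈ (V ∪ W)ᶜ, w i * |f i| = L * l1 f (V ∪ W)ᶜ := by
      unfold l1
      rw [Finset.mul_sum]
      exact Finset.sum_congr rfl (fun i hi => by rw [hwQ i hi])
    have h2 : ∑ i ∈ W, w i * |f i| = ∑ i ∈ W, th i ^ (1 / 200 : ℝ) * |f i| :=
      Finset.sum_congr rfl (fun i hi => by rw [hwW i hi])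
    rw [h1, h2]
    linarith
  obtain ⟨s, hs, hm0, hb, hN⟩ := hlev ι V f ξ w β hβ hβ1 hw0 hξ hbad'
  obtain ⟨g, hgdef⟩ : ∃ g : ι → ℝ, ∀ i, s * f i = g i := ⟨fun i => s * f i, fun _ => rfl⟩
  have hg : ap P g = g := by
    have h1 : g = fun i => s * f i := funext fun i => (hgdef i).symm
    funext i
    rw [h1, ap_smul, hf]
  simp only [hgdef] at hm0 hb hN
  obtain ⟨m0, hm0def⟩ : ∃ m0 : ℝ, m0 = ∑ i ∈ V, |TT (g i)| := ⟨_, rfl⟩
  rw [← hm0def] at hm0 hb
  simp only [← hm0def] at hN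
  have hNV : ∀ h : ℤ, (2 : ℝ) ^ h * (#(V.filter (fun i => (2 : ℝ) ^ (h + 1) ≤ |g i|)) : ℝ)
      ≤ C0 * m0 / β * (2 : ℝ) ^ (|(h : ℝ)| / 40) := by
    intro h
    have h1 := hN h
    have h2 : (0 : ℝ) < (2 : ℝ) ^ h := by positivity
    have h3 : 0 ≤ (2 : ℝ) ^ h * (∑ i ∈ Vᶜ.filter (fun i => (2 : ℝ) ^ (h + 1) ≤ |g i|), w i) :=
      mul_nonneg h2.le (Finset.sum_nonneg fun i _ => hw0 i)
    have h4 : C0 * m0 / β * (2 : ℝ) ^ (|(h : ℝ)| / 40)
        = (C0 * (2 : ℝ) ^ (|(h : ℝ)| / 40) * m0) / β := by ring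
    rw [h4, le_div_iff₀ hβ]
    rw [mul_add] at h1
    linarith
  have hsplit : ∀ h : ℤ, ∑ i ∈ Vᶜ.filter (fun i => (2 : ℝ) ^ (h + 1) ≤ |g i|), w i
      = L * (#((V ∪ W)ᶜ.filter (fun i => (2 : ℝ) ^ (h + 1) ≤ |g i|)) : ℝ)
        + ∑ i ∈ W.filter (fun i => (2 : ℝ) ^ (h + 1) ≤ |g i|), th i ^ (1 / 200 : ℝ) := by
    intro h
    rw [filter_compl_split V W hVW]
    congr 1
    · rw [Finset.sum_congr rfl (fun i hi => hwQ i (Finset.mem_filter.mp hi).1), Finset.sum_const,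
        nsmul_eq_mul, mul_comm]
    · exact Finset.sum_congr rfl (fun i hi => hwW i (Finset.mem_filter.mp hi).1)
  have hNQ : ∀ h : ℤ, (2 : ℝ) ^ h
      * (#((V ∪ W)ᶜ.filter (fun i => (2 : ℝ) ^ (h + 1) ≤ |g i|)) : ℝ)
      ≤ C0 * m0 / L * (2 : ℝ) ^ (|(h : ℝ)| / 40) := by
    intro h
    have h1 := hN h
    rw [hsplit h] at h1
    have h2 : (0 : ℝ) < (2 : ℝ) ^ h := by positivity
    have h3 : 0 ≤ (2 : ℝ) ^ h
        * (∑ i ∈ W.filter (fun i => (2 : ℝ) ^ (h + 1) ≤ |g i|), th i ^ (1 / 200 : ℝ)) :=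
      mul_nonneg h2.le (Finset.sum_nonneg fun i hi =>
        Real.rpow_nonneg (hCh.pos i (Finset.mem_filter.mp hi).1).le _)
    have h3' : 0 ≤ (2 : ℝ) ^ h
        * (β * (#(V.filter (fun i => (2 : ℝ) ^ (h + 1) ≤ |g i|)) : ℝ)) := by positivity
    have h4 : C0 * m0 / L * (2 : ℝ) ^ (|(h : ℝ)| / 40)
        = (C0 * (2 : ℝ) ^ (|(h : ℝ)| / 40) * m0) / L := by ring
    rw [h4, le_div_iff₀ hL0]
    rw [mul_add, mul_add] at h1
    linarith
  have hNW : ∀ h : ℤ, (2 : ℝ) ^ h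
      * ∑ i ∈ W.filter (fun i => (2 : ℝ) ^ (h + 1) ≤ |g i|), th i ^ (1 / 200 : ℝ)
      ≤ C0 * m0 * (2 : ℝ) ^ (|(h : ℝ)| / 40) := by
    intro h
    have h1 := hN h
    rw [hsplit h] at h1
    have h2 : (0 : ℝ) < (2 : ℝ) ^ h := by positivity
    have h3 : 0 ≤ (2 : ℝ) ^ h
        * (L * (#((V ∪ W)ᶜ.filter (fun i => (2 : ℝ) ^ (h + 1) ≤ |g i|)) : ℝ)) := by positivity
    have h3' : 0 ≤ (2 : ℝ) ^ h
        * (β * (#(V.filter (fun i => (2 : ℝ) ^ (h + 1) ≤ |g i|)) : ℝ)) := by positivity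
    rw [mul_add, mul_add] at h1
    linarith
  obtain ⟨g', hg', hN', hnuW, hsmW⟩ := hquant ι P W th B g (C0 * m0) hCh hg (by positivity) hNW
  have hδC : δ / C0 * (C0 * m0) = δ * m0 := by
    field_simp
  rw [hδC] at hN' hnuW hsmW
  have hQW : Disjoint (V ∪ W)ᶜ W := by
    rw [Finset.disjoint_left]
    intro i hi hw
    rw [mem_compl] at hi
    exact hi (mem_union_right _ hw)
  have hNV' : ∑ i ∈ V, (g' i - g i) ^ 2 ≤ δ * m0 := (sum_sub_compl hVW g g').trans hN'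
  have hNQ' : ∑ i ∈ (V ∪ W)ᶜ, (g' i - g i) ^ 2 ≤ δ * m0 := (sum_sub_compl hQW g g').trans hN'
  have hNV0 : 0 ≤ ∑ i ∈ V, (g' i - g i) ^ 2 := Finset.sum_nonneg fun _ _ => sq_nonneg _
  -- numbers of medium points of `g`
  have hcardg : ∀ h : ℤ, |(h : ℝ)| ≤ 40 →
      (2 : ℝ) ^ h * (#(V.filter (fun i => (2 : ℝ) ^ (h + 1) ≤ |g i|)) : ℝ) ≤ C0 * m0 / β * 2 := by
    intro h hh
    exact (hNV h).trans (mul_le_mul_of_nonneg_left (two_rpow_small hh) (by positivity))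
  have hcard2 : (#(V.filter (fun i => 1 / 2 ≤ |g i|)) : ℝ) ≤ 8 * C0 / β * m0 := by
    have h1 := hcardg (-2) (by push_cast; rw [abs_neg, abs_of_pos (by norm_num)]; norm_num)
    have h3 : (2 : ℝ) ^ ((-2 : ℤ) + 1) = 1 / 2 := by norm_num
    have h4 : (2 : ℝ) ^ (-2 : ℤ) = 1 / 4 := by norm_num
    rw [h3, h4] at h1
    have h5 : 8 * C0 / β * m0 = 4 * (C0 * m0 / β * 2) := by ring
    rw [h5]
    linarith
  have hcard4 : (#(V.filter (fun i => 1 / 4 ≤ |g i|)) : ℝ) ≤ 16 * C0 / β * m0 := by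
    have h1 := hcardg (-3) (by push_cast; rw [abs_neg, abs_of_pos (by norm_num)]; norm_num)
    have h3 : (2 : ℝ) ^ ((-3 : ℤ) + 1) = 1 / 4 := by norm_num
    have h4 : (2 : ℝ) ^ (-3 : ℤ) = 1 / 8 := by norm_num
    rw [h3, h4] at h1
    have h5 : 16 * C0 / β * m0 = 8 * (C0 * m0 / β * 2) := by ring
    rw [h5]
    linarith
  -- the change of `TT`
  have hTT : ∑ i ∈ V, |TT (g' i) - TT (g i)| ≤ β / 16 * m0 := by
    have h1 := TT_trans V g g' ha0
    have h2 : a * (#(V.filter (fun i => 1 / 2 ≤ |g i|)) : ℝ) ≤ β / 32 * m0 := by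
      have h3 := mul_le_mul_of_nonneg_left hcard2 ha0.le
      have h4 : a * (8 * C0 / β * m0) = β / 32 * m0 := by
        rw [ha]
        field_simp
        ring
      linarith
    have h3 : (1 / (4 * a) + 2) * ∑ i ∈ V, (g' i - g i) ^ 2 ≤ β / 32 * m0 := by
      have h4 := mul_le_mul_of_nonneg_left hNV' (show 0 ≤ 1 / (4 * a) + 2 by positivity)
      have h5 := mul_le_mul_of_nonneg_right hδa hm0.le
      calc (1 / (4 * a) + 2) * ∑ i ∈ V, (g' i - g i) ^ 2 ≤ (1 / (4 * a) + 2) * (δ * m0) := h4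
        _ = (1 / (4 * a) + 2) * δ * m0 := by ring
        _ ≤ β / 32 * m0 := h5
    linarith
  set M : ℝ := ∑ i ∈ V, |TT (g' i)| with hMdef
  have hβm : β * m0 ≤ m0 := mul_le_of_le_one_left hm0.le hβ1
  have hMlo : m0 - β / 16 * m0 ≤ M := by
    have h1 : m0 ≤ ∑ i ∈ V, (|TT (g' i)| + |TT (g' i) - TT (g i)|) := by
      rw [hm0def]
      apply Finset.sum_le_sum
      intro i _
      have h2 : |TT (g i)| - |TT (g' i)| ≤ |TT (g i) - TT (g' i)| := abs_sub_abs_le_abs_sub _ _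
      rw [abs_sub_comm] at h2
      linarith
    rw [Finset.sum_add_distrib] at h1
    linarith
  have hMhi : M ≤ m0 + β / 16 * m0 := by
    have h1 : M ≤ ∑ i ∈ V, (|TT (g i)| + |TT (g' i) - TT (g i)|) := by
      rw [hMdef]
      apply Finset.sum_le_sum
      intro i _
      have h2 : |TT (g' i)| - |TT (g i)| ≤ |TT (g' i) - TT (g i)| := abs_sub_abs_le_abs_sub _ _
      linarith
    rw [Finset.sum_add_distrib] at h1
    rw [← hm0def] at h1
    linarith
  have hM0 : 0 < M := by linarith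
  have hmM : m0 ≤ 2 * M := by linarith
  have hbb : β / 3 * M < ∑ i ∈ V, ξ i * TT (g' i) := by
    have h1 : ∑ i ∈ V, ξ i * TT (g i) ≤ ∑ i ∈ V, (ξ i * TT (g' i) + |TT (g' i) - TT (g i)|) := by
      apply Finset.sum_le_sum
      intro i hi
      have h2 : ξ i * (TT (g i) - TT (g' i)) ≤ |TT (g' i) - TT (g i)| := by
        calc ξ i * (TT (g i) - TT (g' i)) ≤ |ξ i * (TT (g i) - TT (g' i))| := le_abs_self _
          _ = |ξ i| * |TT (g i) - TT (g' i)| := abs_mul _ _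
          _ ≤ 1 * |TT (g i) - TT (g' i)| :=
              mul_le_mul_of_nonneg_right (hξ i hi) (abs_nonneg _)
          _ = |TT (g' i) - TT (g i)| := by rw [one_mul, abs_sub_comm]
      linarith
    rw [Finset.sum_add_distrib] at h1
    have h4 : β / 3 * M ≤ β / 3 * (m0 + β / 16 * m0) :=
      mul_le_mul_of_nonneg_left hMhi (by positivity)
    have h5 : β / 3 * (m0 + β / 16 * m0) ≤ β / 3 * (m0 + 1 / 16 * m0) :=
      mul_le_mul_of_nonneg_left (by linarith) (by positivity)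
    have h6 : 0 < β * m0 := by positivity
    linarith
  -- profiles of `g`
  have hV := hprof ι V g (C0 * m0 / β) (γ / 2) (by positivity) (by positivity) (by linarith) hNV
  have hQ := hprof ι (V ∪ W)ᶜ g (C0 * m0 / L) (γ / 2) (by positivity) (by positivity)
    (by linarith) hNQ
  have hV2 := (hprof ι V g (C0 * m0 / β) (2 * γ) (by positivity) (by positivity) hγ2 hNV).2
  have hQ2 := (hprof ι (V ∪ W)ᶜ g (C0 * m0 / L) (2 * γ) (by positivity) (by positivity)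
    hγ2 hNQ).2
  rw [hsq] at hV2 hQ2
  have hV1 := hV.1
  have hQ1 := hQ.1
  have e8 : 8 / γ ^ 2 * ∑ i ∈ V, (g' i - g i) ^ 2 ≤ 8 / γ ^ 2 * δ * m0 := by
    have := mul_le_mul_of_nonneg_left hNV' (show 0 ≤ 8 / γ ^ 2 by positivity)
    linarith
  have e9 : 8 / γ ^ 2 * ∑ i ∈ (V ∪ W)ᶜ, (g' i - g i) ^ 2 ≤ 8 / γ ^ 2 * δ * m0 := by
    have := mul_le_mul_of_nonneg_left hNQ' (show 0 ≤ 8 / γ ^ 2 by positivity)
    linarith
  have nV := nu_trans V g g' hγ hγ1
  have nQ := nu_trans (V ∪ W)ᶜ g g' hγ hγ1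
  have hnuQW : nu g' (Vᶜ.filter (fun i => γ ≤ |g' i|)) ≤ 5 * (D0 * C0) / (γ * L) * m0 := by
    have h1 : nu g' (Vᶜ.filter (fun i => γ ≤ |g' i|))
        = nu g' ((V ∪ W)ᶜ.filter (fun i => γ ≤ |g' i|)) + nu g' (W.filter (fun i => γ ≤ |g' i|)) := by
      unfold nu
      exact filter_compl_split V W hVW _ _
    have h2 : (8 / γ ^ 2 * δ + δ) * m0 ≤ 1 / L * m0 := mul_le_mul_of_nonneg_right hδL hm0.le
    have h3 : 2 * (D0 / (γ / 2) * (C0 * m0 / L)) = 4 * (D0 * C0) / (γ * L) * m0 := by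
      field_simp
      ring
    have h4 : 1 / L * m0 ≤ (D0 * C0) / (γ * L) * m0 := by
      apply mul_le_mul_of_nonneg_right _ hm0.le
      rw [div_le_div_iff₀ hL0 (by positivity)]
      rw [one_mul]
      exact mul_le_mul_of_nonneg_right (hγ1.trans hCD) hL0.le
    have h5 : 5 * (D0 * C0) / (γ * L) * m0 = 4 * (D0 * C0) / (γ * L) * m0
        + (D0 * C0) / (γ * L) * m0 := by ring
    rw [h1, h5]
    linarith
  have hnuV : nu g' (V.filter (fun i => γ ≤ |g' i|)) ≤ 5 * (D0 * C0) / (γ * β) * m0 := by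
    have h3 : 2 * (D0 / (γ / 2) * (C0 * m0 / β)) = 4 * (D0 * C0) / (γ * β) * m0 := by
      field_simp
      ring
    have h2 : 8 / γ ^ 2 * δ * m0 ≤ 1 * m0 := by
      apply mul_le_mul_of_nonneg_right _ hm0.le
      have h6 : 1 / L ≤ 1 := by
        rw [div_le_one hL0]
        exact hL
      linarith
    have h4 : 1 * m0 ≤ (D0 * C0) / (γ * β) * m0 := by
      apply mul_le_mul_of_nonneg_right _ hm0.le
      rw [le_div_iff₀ (by positivity)]
      linarith [mul_le_one₀ hγ1 hβ.le hβ1]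
    have h5 : 5 * (D0 * C0) / (γ * β) * m0 = 4 * (D0 * C0) / (γ * β) * m0
        + (D0 * C0) / (γ * β) * m0 := by ring
    rw [h5]
    linarith
  have hcc : ∀ x : ℝ, 0 < x → x ≤ 10 * (D0 * C0) / (γ * β) → x * m0 ≤ c1 * M := by
    intro x hx hx2
    have h1 : x * m0 ≤ x * (2 * M) := mul_le_mul_of_nonneg_left hmM hx.le
    have h2 : x * (2 * M) ≤ 10 * (D0 * C0) / (γ * β) * (2 * M) :=
      mul_le_mul_of_nonneg_right hx2 (by positivity)
    have h3 : 10 * (D0 * C0) / (γ * β) * (2 * M) = c1 * M := by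
      rw [hc1]
      ring
    linarith
  have hnu : nu g' (univ.filter (fun i => γ ≤ |g' i|)) ≤ c1 * M := by
    have h1 : nu g' (univ.filter (fun i => γ ≤ |g' i|))
        = nu g' (V.filter (fun i => γ ≤ |g' i|)) + nu g' (Vᶜ.filter (fun i => γ ≤ |g' i|)) := by
      unfold nu
      exact filter_univ_split V _ _
    have h2 : 5 * (D0 * C0) / (γ * L) * m0 ≤ 5 * (D0 * C0) / (γ * β) * m0 := by
      apply mul_le_mul_of_nonneg_right _ hm0.le
      apply div_le_div_of_nonneg_left (by positivity) (by positivity)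
      exact mul_le_mul_of_nonneg_left (by linarith) hγ.le
    have h3 := hcc (10 * (D0 * C0) / (γ * β)) (by positivity) le_rfl
    have h4 : 10 * (D0 * C0) / (γ * β) * m0 = 5 * (D0 * C0) / (γ * β) * m0
        + 5 * (D0 * C0) / (γ * β) * m0 := by ring
    rw [h1]
    linarith
  have hnv : nu g' (Vᶜ.filter (fun i => γ ≤ |g' i|)) ≤ c1 / L * M := by
    refine hnuQW.trans ?_
    have h1 : 5 * (D0 * C0) / (γ * L) * m0 ≤ 5 * (D0 * C0) / (γ * L) * (2 * M) :=
      mul_le_mul_of_nonneg_left hmM (by positivity)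
    have h2 : 5 * (D0 * C0) / (γ * L) * (2 * M) = 10 * (D0 * C0) / (γ * L) * M := by ring
    have h3 : 10 * (D0 * C0) / (γ * L) * M ≤ c1 / L * M := by
      apply mul_le_mul_of_nonneg_right _ hM0.le
      rw [hc1, div_div, div_le_div_iff₀ (by positivity) (by positivity)]
      have h4 : 0 < D0 * C0 * (γ * L) := by positivity
      have h5 := mul_le_of_le_one_right h4.le hβ1
      linarith
    linarith
  have hsm : ∑ i ∈ univ.filter (fun i => |g' i| < γ), g' i ^ 2 ≤ e0 * M := by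
    rw [filter_univ_split V, filter_compl_split V W hVW]
    have s1 := sm_trans V g g' (γ := γ)
    have s2 := sm_trans (V ∪ W)ᶜ g g' (γ := γ)
    have h1 : D0 * t * (C0 * m0 / L) ≤ D0 * t * (C0 * m0 / β) := by
      apply mul_le_mul_of_nonneg_left _ (by positivity)
      exact div_le_div_of_nonneg_left (by positivity) hβ (by linarith)
    have h2 : 4 * (D0 * t * (C0 * m0 / β)) = e0 / 4 * m0 := by
      rw [← hte]
      ring
    have h3 : 5 * (δ * m0) ≤ e0 / 4 * m0 := by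
      have := mul_le_mul_of_nonneg_right hδe hm0.le
      linarith
    have h4 : e0 / 2 * m0 ≤ e0 / 2 * (2 * M) := mul_le_mul_of_nonneg_left hmM (by positivity)
    linarith
  have hcd : (#(V.filter (fun i => 1 / 2 ≤ |g' i|)) : ℝ) ≤ 64 * C0 / β * M := by
    have h1 := card_trans V g g'
    have h2 : 16 * (δ * m0) ≤ 16 * C0 / β * m0 := by
      have h3 : δ * m0 ≤ C0 / β * m0 := mul_le_mul_of_nonneg_right (by linarith) hm0.le
      have h4 : 16 * C0 / β * m0 = 16 * (C0 / β * m0) := by ring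
      linarith
    have h5 : 32 * C0 / β * m0 ≤ 32 * C0 / β * (2 * M) :=
      mul_le_mul_of_nonneg_left hmM (by positivity)
    have h6 : 32 * C0 / β * (2 * M) = 64 * C0 / β * M := by ring
    have h7 : 32 * C0 / β * m0 = 16 * C0 / β * m0 + 16 * C0 / β * m0 := by ring
    linarith
  have hB0 : 1 ≤ 64 * C0 / β := by
    rw [le_div_iff₀ hβ]
    linarith
  obtain ⟨Z, m, hZ⟩ := core hPART β (64 * C0 / β) ε γ c1 hβ hβ1 hB0 hε hε1 hγ hγ1 hc1one L ι P V g'
    ξ M hL hP hg' hξ hMdef hM0 hbb hnu hnv hsm hcd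
  exact ⟨g', Z, m, hZ⟩

end

end Pool.Agent.Helper66.KF
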