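import Pool.Agent.Helper66.KF.Assemble
import Pool.Agent.Helper66.KF.Piece2

/-!
# The Komlos theorem and the Beck-Fiala bound
-/

namespace Pool.Agent.Helper66.KF

theorem piece2 : Pool.Agent.Helper38.ZS2.ST_PIECE2 :=
  st_piece2 Helper82.ZS2.st_level2 Helper55.ZS.st_PROF
    (Helper38.ZS2.st_quant Helper82.ZS2.st_wprof) Helper55.ZS.st_PART

/-- Komlos, any dimension -/
theorem komlos : Pool.Agent.Helper37.KF2.ST_KOMLOS := komlos_of piece2

end Pool.Agent.Helper66.KF
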