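import Pool.Agent.Helper37.KF.Stmts2

/-!
# From the Komlos theorem to the Beck-Fiala statement with sets
-/

namespace Pool.Agent.Helper66.KF

open Finset
open scoped Classical

/-- the set version of `ST_KOMLOS`: columns of the incidence matrix divided by `√t` -/
theorem beckFiala_of_komlos (h : Pool.Agent.Helper37.KF2.ST_KOMLOS) :
    ∃ C : ℝ, 0 < C ∧
      ∀ (n m t : ℕ) (S : Fin m → Finset (Fin n)),
        (∀ i : Fin n, (Finset.univ.filter (fun j : Fin m => i ∈ S j)).card ≤ t) →
        ∃ χ : Fin n → ℤ, (∀ i, χ i = 1 ∨ χ i = -1) ∧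
          ∀ j : Fin m, ((|∑ i ∈ S j, χ i| : ℤ) : ℝ) ≤ C * Real.sqrt (t : ℝ) := by
  obtain ⟨K, hK, hmain⟩ := h
  refine ⟨K, hK, ?_⟩
  intro n m t S hS
  rcases Nat.eq_zero_or_pos t with ht | ht
  · -- all sets are empty
    subst ht
    refine ⟨fun _ => 1, fun _ => Or.inl rfl, ?_⟩
    intro j
    have hemp : S j = ∅ := by
      rw [Finset.eq_empty_iff_forall_notMem]
      intro i hi
      have h0 := hS i
      have h1 : j ∈ Finset.univ.filter (fun j : Fin m => i ∈ S j) := by simp [hi]
      have h2 : 0 < (Finset.univ.filter (fun j : Fin m => i ∈ S j)).card :=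
        Finset.card_pos.mpr ⟨j, h1⟩
      omega
    rw [hemp]
    simp
  · have htR : (0 : ℝ) < (t : ℝ) := by exact_mod_cast ht
    have hs : 0 < Real.sqrt (t : ℝ) := Real.sqrt_pos.mpr htR
    have hsq : Real.sqrt (t : ℝ) ^ 2 = (t : ℝ) := Real.sq_sqrt htR.le
    let a : Fin n → Fin m → ℝ := fun v j => if v ∈ S j then 1 / Real.sqrt (t : ℝ) else 0
    have ha : ∀ v, ∑ j, a v j ^ 2 ≤ 1 := by
      intro v
      have h1 : ∑ j, a v j ^ 2
          = ((Finset.univ.filter (fun j : Fin m => v ∈ S j)).card : ℝ) * (1 / (t : ℝ)) := by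
        rw [← nsmul_eq_mul, ← Finset.sum_const, Finset.sum_filter]
        refine Finset.sum_congr rfl ?_
        intro j _
        by_cases hv : v ∈ S j
        · simp only [a, hv, if_true]
          rw [div_pow, hsq, one_pow]
        · simp [a, hv]
      rw [h1]
      have h2 : ((Finset.univ.filter (fun j : Fin m => v ∈ S j)).card : ℝ) ≤ (t : ℝ) := by
        exact_mod_cast hS v
      rw [mul_one_div]
      exact (div_le_one htR).mpr h2
    obtain ⟨x, hx, hrow⟩ := hmain (Fin n) (Fin m) a ha
    refine ⟨fun i => if x i = 1 then 1 else -1, ?_, ?_⟩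
    · intro i
      by_cases hi : x i = 1
      · left; simp [hi]
      · right; simp [hi]
    · intro j
      have hcast : (((∑ i ∈ S j, (if x i = 1 then (1 : ℤ) else -1)) : ℤ) : ℝ)
          = ∑ i ∈ S j, x i := by
        rw [Int.cast_sum]
        refine Finset.sum_congr rfl ?_
        intro i _
        rcases hx i with hi | hi
        · simp [hi]
        · have hne : ¬ ((-1 : ℝ) = 1) := by norm_num
          simp [hi, hne]
      have hsum : ∑ v, x v * a v j = (∑ i ∈ S j, x i) / Real.sqrt (t : ℝ) := by
        rw [Finset.sum_div]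
        rw [← Finset.sum_filter_add_sum_filter_not Finset.univ (fun v => v ∈ S j)]
        have e1 : ∑ v ∈ Finset.univ.filter (fun v => v ∈ S j), x v * a v j
            = ∑ i ∈ S j, x i / Real.sqrt (t : ℝ) := by
          have hf : Finset.univ.filter (fun v => v ∈ S j) = S j := by
            ext v; simp
          rw [hf]
          refine Finset.sum_congr rfl ?_
          intro i hi
          simp only [a, hi, if_true]
          rw [mul_one_div]
        have e2 : ∑ v ∈ Finset.univ.filter (fun v => ¬ v ∈ S j), x v * a v j = 0 := by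
          refine Finset.sum_eq_zero ?_
          intro i hi
          have hi' : ¬ i ∈ S j := (Finset.mem_filter.mp hi).2
          simp [a, hi']
        rw [e1, e2, add_zero]
      have hr := hrow j
      rw [hsum, abs_div, abs_of_pos hs, div_le_iff₀ hs] at hr
      rw [Int.cast_abs, hcast]
      exact hr

end Pool.Agent.Helper66.KF
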