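import Pool.Agent.Helper66.KF.Dom
import Pool.Agent.Helper66.KF.FromKomlos
import Pool.Agent.Helper66.NF.All
import Pool.Agent.Helper11.KF.Round
import Pool.Agent.Helper25.KF.Bits2
import Pool.Agent.Helper25.KF.KCost
import Pool.Agent.Helper38.ZS2.Quant
import Pool.Agent.Helper38.ZS2.Sign
import Pool.Agent.Helper61.KOM.Low
import Pool.Agent.Helper80.KF.StKomlos
import Pool.Agent.Helper81.KF.Signf2
import Pool.Agent.Helper82.ZS2.Level2
import Pool.Agent.Helper82.ZS2.WProf
import Pool.Agent.Helper90.KOM.Rank2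
import Pool.Agent.Helper92.KF.Step

/-!
# The Komlos theorem from its last module
-/

namespace Pool.Agent.Helper66.KF

/-- zonotope signing with cheap coordinates -/
theorem sign2 (hP : Pool.Agent.Helper38.ZS2.ST_PIECE2) : Pool.Agent.Helper38.ZS2.ST_SIGN2 :=
  Helper38.ZS2.st_sign2 hP Helper43.ZS.st_big Helper3.ZS.st_REC
    (Helper38.ZS.st_zc
      (Helper94.ZS.st_COUNT
        (Helper81.ZS.st_step (Helper94.ZS.st_SAMPLES Helper37.ZS.st_sample)
          Helper39.ZS.st_PACK Helper27.ZS.st_greedy)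
        (Helper81.ZS.st_top Helper39.ZS.st_PACK Helper27.ZS.st_greedy)
        Helper38.ZS.st_zcnt (Helper81.ZS.st_sub Helper38.ZS.st_perc))
      Helper38.ZS.st_zcnt)

/-- the rank function -/
theorem rank : Pool.Agent.Helper90.KOM.ST_RANK :=
  Helper90.KOM.st_rank Helper25.KOM.st_cmp Helper25.KOM.st_gain Helper61.KOM.st_low
    Helper25.KOM.st_up

/-- domination and leverage -/
theorem dom : Pool.Agent.Helper90.KOM.ST_DOM :=
  st_dom Helper3.NFR.st_rat Helper25.KOM.st_int

theorem komlos_of (hP : Pool.Agent.Helper38.ZS2.ST_PIECE2) :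
    Pool.Agent.Helper37.KF2.ST_KOMLOS :=
  Helper80.KF.st_komlos rank
    (Helper92.KF.st_step dom Helper11.KF.st_l1d (Helper81.KF2.st_signf (sign2 hP))
      Helper25.KF.st_bits2)

end Pool.Agent.Helper66.KF
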