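import Pool.Agent.Helper55.ZS.Piece

/-!
# From a vector with a good profile to a piece
-/

namespace Pool.Agent.Helper66.KF

open Finset Pool.Agent.Helper38.ZS
open Pool.Agent.Helper55.ZS (sum_pieces sum_pieces_inter sum_pieces_sdiff card_eq_sum DD_large)
open scoped Classical

noncomputable section

theorem TT_small {x : ℝ} (h2 : |x| ≤ 1) : TT x = 0 := by
  have := abs_le.1 h2
  unfold TT cl
  rw [min_eq_left (by linarith), max_eq_right (by linarith), min_eq_left (by linarith),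
    max_eq_right (by linarith)]
  ring

theorem core (hPART : ST_PART) (β B0 ε γ c1 : ℝ) (hβ : 0 < β) (hβ1 : β ≤ 1) (hB0 : 1 ≤ B0)
    (hε : 0 < ε) (hε1 : ε ≤ 1) (hγ : 0 < γ) (hγ1 : γ ≤ 1) (hc1 : 1 ≤ c1)
    (L : ℝ) (ι : Type) [Fintype ι] (P : ι → ι → ℝ) (V : Finset ι) (g ξ : ι → ℝ) (M : ℝ)
    (hL : 1 ≤ L) (hP : IsPr P) (hg : ap P g = g) (hξ : ∀ i ∈ V, |ξ i| ≤ 1)
    (hM : M = ∑ i ∈ V, |TT (g i)|) (hM0 : 0 < M) (hb : β / 3 * M < ∑ i ∈ V, ξ i * TT (g i))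
    (hnu : nu g (univ.filter (fun i => γ ≤ |g i|)) ≤ c1 * M)
    (hnv : nu g (Vᶜ.filter (fun i => γ ≤ |g i|)) ≤ c1 / L * M)
    (hsm : ∑ i ∈ univ.filter (fun i => |g i| < γ), g i ^ 2 ≤ ε * β / 192 * M)
    (hcd : (#(V.filter (fun i => 1 / 2 ≤ |g i|)) : ℝ) ≤ B0 * M) :
    ∃ (Z : Finset ι) (m : ℝ), m = ∑ i ∈ Z ∩ V, |TT (g i)| ∧ 0 < m ∧
        β / 4 * m < ∑ i ∈ Z ∩ V, ξ i * TT (g i) ∧ (∀ i ∈ Z, γ ≤ |g i|) ∧
        Link P (γ * ε * β / (7680 * c1)) Z g ∧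
        nu g Z ≤ 96 * c1 / β * m ∧ nu g (Z \ V) ≤ 96 * c1 / β / L * m ∧ DD P g Z ≤ ε * m ∧
        (#((Z ∩ V).filter (fun i => 1 / 2 ≤ |g i|)) : ℝ) ≤ 96 * B0 / β * m := by
  set κ : ℝ := γ * ε * β / (7680 * c1) with hκdef
  have hκ : 0 < κ := by positivity
  have hL0 : 0 < L := by linarith
  have hc10 : 0 < c1 := by linarith
  have hB00 : 0 < B0 := by linarith
  set G : Finset ι := univ.filter (fun i => γ ≤ |g i|) with hGdef
  have hDG : DD P g G ≤ ε * β / 192 * M := by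
    refine (DD_large hP g hg G).trans ?_
    have h1 : Gᶜ = univ.filter (fun i => |g i| < γ) := by
      ext i
      simp [hGdef]
    rw [h1]
    exact hsm
  have hGM : G \ V = Vᶜ.filter (fun i => γ ≤ |g i|) := by
    ext i
    simp [hGdef, and_comm]
  have hcard : (#((G ∩ V).filter (fun i => 1 / 2 ≤ |g i|)) : ℝ) ≤ B0 * M := by
    refine le_trans ?_ hcd
    exact_mod_cast Finset.card_le_card (by
      intro i hi
      rw [Finset.mem_filter] at hi ⊢
      exact ⟨(Finset.mem_inter.mp hi.1).2, hi.2⟩)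
  -- partition
  obtain ⟨Q, hQ1, hQ2, hQ3, hQ4, hQ5⟩ := hPART ι P g G γ κ hP hγ hγ1 hκ
    (fun i hi => (Finset.mem_filter.mp hi).2)
  have hTT0 : ∀ i, i ∉ G → TT (g i) = 0 := by
    intro i hi
    have h1 : |g i| < γ := by
      by_contra hcon
      exact hi (Finset.mem_filter.mpr ⟨Finset.mem_univ _, not_lt.mp hcon⟩)
    exact TT_small (by linarith)
  have hGVsum : ∀ φ : ι → ℝ, (∀ i, i ∉ G → φ i = 0) → ∑ i ∈ G ∩ V, φ i = ∑ i ∈ V, φ i := by
    intro φ hφ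
    apply Finset.sum_subset Finset.inter_subset_right
    intro i hi hi2
    apply hφ
    intro hcon
    exact hi2 (Finset.mem_inter.mpr ⟨hcon, hi⟩)
  set e0 : ℝ := ε * β / 96 with he0
  have he0p : 0 < e0 := by positivity
  set mm : Finset ι → ℝ := fun Z => ∑ i ∈ Z ∩ V, |TT (g i)| with hmm
  set bb : Finset ι → ℝ := fun Z => ∑ i ∈ Z ∩ V, ξ i * TT (g i) with hbb
  set kk : Finset ι → ℝ := fun Z => (#((Z ∩ V).filter (fun i => 1 / 2 ≤ |g i|)) : ℝ) with hkk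
  have smm : ∑ Z ∈ Q, mm Z = M := by
    rw [hmm, hM]
    rw [sum_pieces_inter V hQ2 hQ3 (fun i => |TT (g i)|),
      hGVsum (fun i => |TT (g i)|) (fun i hi => by rw [hTT0 i hi, abs_zero])]
  have sbb : ∑ Z ∈ Q, bb Z = ∑ i ∈ V, ξ i * TT (g i) := by
    rw [hbb]
    rw [sum_pieces_inter V hQ2 hQ3 (fun i => ξ i * TT (g i)),
      hGVsum (fun i => ξ i * TT (g i)) (fun i hi => by rw [hTT0 i hi, mul_zero])]
  have skk : ∑ Z ∈ Q, kk Z ≤ B0 * M := by
    have h1 : ∑ Z ∈ Q, kk Z = (#((G ∩ V).filter (fun i => 1 / 2 ≤ |g i|)) : ℝ) := by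
      rw [hkk]
      simp only [card_eq_sum]
      exact sum_pieces_inter V hQ2 hQ3 _
    rw [h1]
    exact hcard
  have snu : ∑ Z ∈ Q, nu g Z ≤ c1 * M := by
    have h1 : ∑ Z ∈ Q, nu g Z = nu g G := by
      unfold nu
      exact sum_pieces hQ2 hQ3 _
    rw [h1]
    exact hnu
  have snv : ∑ Z ∈ Q, nu g (Z \ V) ≤ c1 / L * M := by
    have h1 : ∑ Z ∈ Q, nu g (Z \ V) = nu g (G \ V) := by
      unfold nu
      exact sum_pieces_sdiff V hQ2 hQ3 _
    rw [h1, hGM]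
    exact hnv
  have sDD : ∑ Z ∈ Q, DD P g Z ≤ e0 * M := by
    have h1 : 40 * κ / γ * nu g G ≤ 40 * κ / γ * (c1 * M) :=
      mul_le_mul_of_nonneg_left hnu (by positivity)
    have h2 : 40 * κ / γ * (c1 * M) = ε * β / 192 * M := by
      rw [hκdef]
      field_simp
      ring
    have h3 : e0 * M = ε * β / 192 * M + ε * β / 192 * M := by
      rw [he0]
      ring
    rw [h3]
    linarith
  -- averaging
  have havg : 0 < ∑ Z ∈ Q, (bb Z - β / 4 * mm Z - β / 96 * (DD P g Z / e0 + nu g Z / c1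
      + L * nu g (Z \ V) / c1 + kk Z / B0)) := by
    have h1 : ∑ Z ∈ Q, (bb Z - β / 4 * mm Z - β / 96 * (DD P g Z / e0 + nu g Z / c1
        + L * nu g (Z \ V) / c1 + kk Z / B0))
        = ∑ Z ∈ Q, bb Z - β / 4 * ∑ Z ∈ Q, mm Z - β / 96 * ((∑ Z ∈ Q, DD P g Z) / e0
          + (∑ Z ∈ Q, nu g Z) / c1 + L * (∑ Z ∈ Q, nu g (Z \ V)) / c1 + (∑ Z ∈ Q, kk Z) / B0) := by
      simp only [Finset.sum_sub_distrib, ← Finset.mul_sum, Finset.sum_add_distrib,
        ← Finset.sum_div]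
    rw [h1, smm, sbb]
    have h2 : (∑ Z ∈ Q, DD P g Z) / e0 ≤ M := by
      rw [div_le_iff₀ he0p]
      linarith
    have h3 : (∑ Z ∈ Q, nu g Z) / c1 ≤ M := by
      rw [div_le_iff₀ hc10]
      linarith
    have h4 : L * (∑ Z ∈ Q, nu g (Z \ V)) / c1 ≤ M := by
      rw [div_le_iff₀ hc10]
      have h5 := mul_le_mul_of_nonneg_left snv hL0.le
      have h6 : L * (c1 / L * M) = M * c1 := by
        field_simp
      linarith
    have h5 : (∑ Z ∈ Q, kk Z) / B0 ≤ M := by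
      rw [div_le_iff₀ hB00]
      linarith
    have h6 : β / 96 * ((∑ Z ∈ Q, DD P g Z) / e0
          + (∑ Z ∈ Q, nu g Z) / c1 + L * (∑ Z ∈ Q, nu g (Z \ V)) / c1 + (∑ Z ∈ Q, kk Z) / B0)
          ≤ β / 96 * (4 * M) :=
      mul_le_mul_of_nonneg_left (by linarith) (by positivity)
    have h7 : 0 < β * M := mul_pos hβ hM0
    linarith
  obtain ⟨Z, hZ, hZpos⟩ : ∃ Z ∈ Q, 0 < bb Z - β / 4 * mm Z - β / 96 * (DD P g Z / e0
      + nu g Z / c1 + L * nu g (Z \ V) / c1 + kk Z / B0) := by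
    by_contra hcon
    push Not at hcon
    have := Finset.sum_nonpos hcon
    linarith
  have hZG : Z ⊆ G := by
    rw [← hQ3]
    exact Finset.subset_biUnion_of_mem id hZ
  have hDD0 : 0 ≤ DD P g Z / e0 := div_nonneg (DD_nonneg P g Z) he0p.le
  have hnu0 : 0 ≤ nu g Z / c1 := div_nonneg (nu_nonneg g Z) hc10.le
  have hnv0 : 0 ≤ L * nu g (Z \ V) / c1 :=
    div_nonneg (mul_nonneg hL0.le (nu_nonneg g _)) hc10.le
  have hkk0 : 0 ≤ kk Z / B0 := div_nonneg (Nat.cast_nonneg _) hB00.le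
  have hmm0 : 0 ≤ mm Z := Finset.sum_nonneg (fun _ _ => abs_nonneg _)
  have hbm : bb Z ≤ mm Z := by
    apply Finset.sum_le_sum
    intro i hi
    have h1 := hξ i (Finset.mem_inter.mp hi).2
    calc ξ i * TT (g i) ≤ |ξ i * TT (g i)| := le_abs_self _
      _ = |ξ i| * |TT (g i)| := abs_mul _ _
      _ ≤ 1 * |TT (g i)| := mul_le_mul_of_nonneg_right h1 (abs_nonneg _)
      _ = |TT (g i)| := one_mul _
  have hβ96 : 0 < β / 96 := by positivity
  have hsum0 : 0 ≤ β / 96 * (DD P g Z / e0 + nu g Z / c1 + L * nu g (Z \ V) / c1 + kk Z / B0) := by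
    positivity
  have hβm : 0 ≤ β / 4 * mm Z := by positivity
  have hmpos : 0 < mm Z := by linarith
  -- each quantity
  have hone : ∀ x : ℝ, x ≤ DD P g Z / e0 + nu g Z / c1 + L * nu g (Z \ V) / c1 + kk Z / B0 →
      x ≤ 96 / β * mm Z := by
    intro x hx
    have h1 : β / 96 * x ≤ mm Z := by
      have := mul_le_mul_of_nonneg_left hx hβ96.le
      linarith
    have h2 : x = 96 / β * (β / 96 * x) := by
      field_simp
    rw [h2]
    exact mul_le_mul_of_nonneg_left h1 (by positivity)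
  have q1 := hone (DD P g Z / e0) (by linarith)
  have q2 := hone (nu g Z / c1) (by linarith)
  have q3 := hone (L * nu g (Z \ V) / c1) (by linarith)
  have q4 := hone (kk Z / B0) (by linarith)
  rw [div_le_iff₀ he0p] at q1
  rw [div_le_iff₀ hc10] at q2
  rw [div_le_iff₀ hc10] at q3
  rw [div_le_iff₀ hB00] at q4
  refine ⟨Z, mm Z, rfl, hmpos, ?_, ?_, hQ4 Z hZ, ?_, ?_, ?_, ?_⟩
  · linarith
  · intro i hi
    exact (Finset.mem_filter.mp (hZG hi)).2
  · refine q2.trans (le_of_eq ?_)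
    ring
  · have h1 : nu g (Z \ V) ≤ 96 / β * mm Z * c1 / L := by
      rw [le_div_iff₀ hL0]
      linarith
    refine h1.trans (le_of_eq ?_)
    ring
  · refine q1.trans (le_of_eq ?_)
    rw [he0]
    field_simp
  · refine q4.trans (le_of_eq ?_)
    ring

end

end Pool.Agent.Helper66.KF
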