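import Pool.Agent.Helper25.KF.KBase
import Pool.Agent.Helper3.NFR.Base
import Pool.Agent.Helper3.NFR.Rat

/-! # domination and leverage, real matrices (port of Helper3.NFR.Dom) -/

namespace Pool.Agent.Helper66.KF

open Finset MeasureTheory Pool.Agent.Helper90.KOM Pool.Agent.Helper25.KOM
open Pool.Agent.Helper3.NFR (ph ps J0 dn ST_RAT ph_half)
open scoped Classical

variable {V R : Type} [Fintype V] [Fintype R]

/-- second difference bound used as majorant -/
noncomputable def UU (a : V → R → ℝ) (b c : ℝ) (lam : R → ℝ) (s : V → ℝ) (T E : Finset V)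
    (h y : R → ℝ) : ℝ :=
  4 * ∑ S, ps (lam S * h S) + 2 * b * ∑ v ∈ T, ph (s v * fn a v h)
    - 2 * b * c * ∑ u ∈ E, ph (fn a u h) * (1 - 6 * ph (fn a u y))

/-- the exponent -/
noncomputable def GG (a : V → R → ℝ) (b c : ℝ) (lam : R → ℝ) (s : V → ℝ) (T E : Finset V)
    (y : R → ℝ) : ℝ :=
  2 * ∑ S, ps (lam S * y S) - b * xp a c s T E y

omit [Fintype V] in
theorem wt_eq (a : V → R → ℝ) (b c : ℝ) (lam : R → ℝ) (s : V → ℝ) (T E : Finset V)
    (y : R → ℝ) : wt a b c lam s T E y = (∏ S, lam S / J0) * Real.exp (- GG a b c lam s T E y) := by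
  unfold wt GG dn
  rw [Finset.prod_mul_distrib, mul_assoc]
  congr 1
  rw [neg_sub, sub_eq_add_neg, add_comm, Real.exp_add]
  congr 1
  rw [Finset.mul_sum, ← Finset.sum_neg_distrib, Real.exp_sum]
  apply Finset.prod_congr rfl
  intro S _
  unfold ps
  have hp : 0 < 1 + (lam S * y S) ^ 2 := by positivity
  rw [show -(2 * Real.log (1 + (lam S * y S) ^ 2)) = -(Real.log ((1 + (lam S * y S) ^ 2) ^ 2)) by
    rw [Real.log_pow]; norm_num]
  rw [Real.exp_neg, Real.exp_log (by positivity)]

omit [Fintype V] in
theorem GG_diff (hr : ST_RAT) (a : V → R → ℝ) (b c : ℝ) (lam : R → ℝ) (s : V → ℝ)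
    (T E : Finset V) (hb : 0 ≤ b) (hc : 0 ≤ c) (h y : R → ℝ) :
    GG a b c lam s T E (y + h) + GG a b c lam s T E (y - h) - 2 * GG a b c lam s T E y ≤
      UU a b c lam s T E h y := by
  obtain ⟨r1, r2, r3, -, -⟩ := hr
  have e1 : ∑ S, ps (lam S * (y + h) S) + ∑ S, ps (lam S * (y - h) S) - 2 * ∑ S, ps (lam S * y S)
      ≤ 2 * ∑ S, ps (lam S * h S) := by
    rw [Finset.mul_sum, Finset.mul_sum, ← Finset.sum_add_distrib, ← Finset.sum_sub_distrib]
    apply Finset.sum_le_sum
    intro S _
    have := r1 (lam S * y S) (lam S * h S)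
    simp only [Pi.add_apply, Pi.sub_apply, mul_add, mul_sub]
    exact this
  have e2 : ∑ v ∈ T, ph (s v * fn a v (y + h)) + ∑ v ∈ T, ph (s v * fn a v (y - h))
      - 2 * ∑ v ∈ T, ph (s v * fn a v y) ≤ 2 * ∑ v ∈ T, ph (s v * fn a v h) := by
    rw [Finset.mul_sum, Finset.mul_sum, ← Finset.sum_add_distrib, ← Finset.sum_sub_distrib]
    apply Finset.sum_le_sum
    intro v _
    have := r2 (s v * fn a v y) (s v * fn a v h)
    rw [fn_add, fn_sub, mul_add, mul_sub]
    exact this
  have e3 : 2 * ∑ u ∈ E, ph (fn a u h) * (1 - 6 * ph (fn a u y)) ≤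
      ∑ u ∈ E, ph (fn a u (y + h)) + ∑ u ∈ E, ph (fn a u (y - h)) - 2 * ∑ u ∈ E, ph (fn a u y) := by
    rw [Finset.mul_sum, Finset.mul_sum, ← Finset.sum_add_distrib, ← Finset.sum_sub_distrib]
    apply Finset.sum_le_sum
    intro u _
    have := r3 (fn a u y) (fn a u h)
    rw [fn_add, fn_sub]
    linarith
  have e2' := mul_le_mul_of_nonneg_left e2 hb
  have e3' := mul_le_mul_of_nonneg_left e3 (mul_nonneg hb hc)
  unfold GG UU xp
  nlinarith [e1, e2', e3']

omit [Fintype V] in
theorem wt_shift (hr : ST_RAT) (a : V → R → ℝ) (b c : ℝ) (lam : R → ℝ) (s : V → ℝ)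
    (T E : Finset V) (hb : 0 ≤ b) (hc : 0 ≤ c) (hK : 0 ≤ ∏ S, lam S / J0) (h y : R → ℝ) :
    wt a b c lam s T E y * (2 - UU a b c lam s T E h y) ≤
      wt a b c lam s T E (y + h) + wt a b c lam s T E (y - h) := by
  have hd := GG_diff hr a b c lam s T E hb hc h y
  rw [wt_eq, wt_eq, wt_eq]
  set g0 := GG a b c lam s T E y
  set g1 := GG a b c lam s T E (y + h)
  set g2 := GG a b c lam s T E (y - h)
  set U := UU a b c lam s T E h y
  set K := ∏ S, lam S / J0
  have h1 : Real.exp (-g0) * (1 - (g1 - g0)) ≤ Real.exp (-g1) := by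
    have : Real.exp (-g1) = Real.exp (-g0) * Real.exp (-(g1 - g0)) := by
      rw [← Real.exp_add]; congr 1; ring
    rw [this]
    apply mul_le_mul_of_nonneg_left _ (Real.exp_pos _).le
    have := Real.add_one_le_exp (-(g1 - g0))
    linarith
  have h2 : Real.exp (-g0) * (1 - (g2 - g0)) ≤ Real.exp (-g2) := by
    have : Real.exp (-g2) = Real.exp (-g0) * Real.exp (-(g2 - g0)) := by
      rw [← Real.exp_add]; congr 1; ring
    rw [this]
    apply mul_le_mul_of_nonneg_left _ (Real.exp_pos _).le
    have := Real.add_one_le_exp (-(g2 - g0))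
    linarith
  have h3 : Real.exp (-g0) * (2 - U) ≤ Real.exp (-g1) + Real.exp (-g2) := by
    have h4 : Real.exp (-g0) * (2 - U) ≤ Real.exp (-g0) * (2 - (g1 + g2 - 2 * g0)) :=
      mul_le_mul_of_nonneg_left (by linarith) (Real.exp_pos _).le
    nlinarith
  calc K * Real.exp (-g0) * (2 - U) = K * (Real.exp (-g0) * (2 - U)) := by ring
    _ ≤ K * (Real.exp (-g1) + Real.exp (-g2)) := mul_le_mul_of_nonneg_left h3 hK
    _ = _ := by ring

omit [Fintype V] in
/-- the geometric mean of the two shifted weights -/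
theorem wt_geo (hr : ST_RAT) (a : V → R → ℝ) (b c : ℝ) (lam : R → ℝ) (s : V → ℝ)
    (T E : Finset V) (hb : 0 ≤ b) (hc : 0 ≤ c) (hK : 0 ≤ ∏ S, lam S / J0) (h y : R → ℝ)
    (m : ℝ) (u : V) (hu : 1 ≤ |fn a u h|) :
    Real.exp (-m) * (wt a b c lam s T E y * (1 + m - UU a b c lam s T E h y / 2)) ≤
      7 * (ph (fn a u (y + h)) * wt a b c lam s T E (y + h) +
        ph (fn a u (y - h)) * wt a b c lam s T E (y - h)) +
      (wt a b c lam s T E (y + h) + wt a b c lam s T E (y - h)) / 14 := by
  have hd := GG_diff hr a b c lam s T E hb hc h y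
  rw [wt_eq, wt_eq, wt_eq]
  have hcase : 1 ≤ |fn a u (y + h)| ∨ 1 ≤ |fn a u (y - h)| := by
    by_contra hcon
    push Not at hcon
    have h5 : fn a u (y + h) - fn a u (y - h) = 2 * fn a u h := by rw [fn_add, fn_sub]; ring
    have h6 : |fn a u (y + h) - fn a u (y - h)| ≤ |fn a u (y + h)| + |fn a u (y - h)| := abs_sub _ _
    rw [h5, abs_mul, abs_two] at h6
    linarith [hcon.1, hcon.2]
  set g0 := GG a b c lam s T E y
  set g1 := GG a b c lam s T E (y + h)
  set g2 := GG a b c lam s T E (y - h)
  set U := UU a b c lam s T E h y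
  set K := ∏ S, lam S / J0
  set p1 := ph (fn a u (y + h)) with hp1
  set p2 := ph (fn a u (y - h)) with hp2
  have hp1' : 0 ≤ p1 := ph_nonneg _
  have hp2' : 0 ≤ p2 := ph_nonneg _
  have hc2 : 1 ≤ 2 * p1 ∨ 1 ≤ 2 * p2 := by
    rcases hcase with h7 | h7
    · exact Or.inl (ph_half _ h7)
    · exact Or.inr (ph_half _ h7)
  -- left side below the geometric mean
  have hl : Real.exp (-m) * (Real.exp (-g0) * (1 + m - U / 2)) ≤
      Real.exp (-(g1 / 2)) * Real.exp (-(g2 / 2)) := by
    have h8 : Real.exp (-(g1 / 2)) * Real.exp (-(g2 / 2)) =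
        Real.exp (-m) * (Real.exp (-g0) * Real.exp (m - (g1 + g2 - 2 * g0) / 2)) := by
      rw [← Real.exp_add, ← Real.exp_add, ← Real.exp_add]; congr 1; ring
    rw [h8]
    apply mul_le_mul_of_nonneg_left _ (Real.exp_pos _).le
    apply mul_le_mul_of_nonneg_left _ (Real.exp_pos _).le
    have := Real.add_one_le_exp (m - (g1 + g2 - 2 * g0) / 2)
    linarith
  have e1 : Real.exp (-g1) = Real.exp (-(g1 / 2)) ^ 2 := by
    rw [← Real.exp_nat_mul]; congr 1; push_cast; ring
  have e2 : Real.exp (-g2) = Real.exp (-(g2 / 2)) ^ 2 := by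
    rw [← Real.exp_nat_mul]; congr 1; push_cast; ring
  set x1 := Real.exp (-(g1 / 2)) with hx1
  set x2 := Real.exp (-(g2 / 2)) with hx2
  have hx1p : 0 < x1 := Real.exp_pos _
  have hx2p : 0 < x2 := Real.exp_pos _
  have hm : x1 * x2 ≤ 7 * (p1 * x1 ^ 2 + p2 * x2 ^ 2) + (x1 ^ 2 + x2 ^ 2) / 14 := by
    rcases hc2 with h9 | h9
    · have h10 : x1 * x2 ≤ 7 / 2 * x1 ^ 2 + x2 ^ 2 / 14 := by nlinarith [sq_nonneg (7 * x1 - x2)]
      have h11 : x1 ^ 2 * 1 ≤ x1 ^ 2 * (2 * p1) := mul_le_mul_of_nonneg_left h9 (by positivity)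
      have h12 : 0 ≤ p2 * x2 ^ 2 := by positivity
      nlinarith [sq_nonneg x1]
    · have h10 : x1 * x2 ≤ 7 / 2 * x2 ^ 2 + x1 ^ 2 / 14 := by nlinarith [sq_nonneg (7 * x2 - x1)]
      have h11 : x2 ^ 2 * 1 ≤ x2 ^ 2 * (2 * p2) := mul_le_mul_of_nonneg_left h9 (by positivity)
      have h12 : 0 ≤ p1 * x1 ^ 2 := by positivity
      nlinarith [sq_nonneg x2]
  calc Real.exp (-m) * (K * Real.exp (-g0) * (1 + m - U / 2))
      = K * (Real.exp (-m) * (Real.exp (-g0) * (1 + m - U / 2))) := by ring
    _ ≤ K * (x1 * x2) := mul_le_mul_of_nonneg_left hl hK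
    _ ≤ K * (7 * (p1 * x1 ^ 2 + p2 * x2 ^ 2) + (x1 ^ 2 + x2 ^ 2) / 14) :=
        mul_le_mul_of_nonneg_left hm hK
    _ = _ := by rw [e1, e2]; ring

omit [Fintype V] in
theorem xp_cont (a : V → R → ℝ) (c : ℝ) (s : V → ℝ) (T E : Finset V) :
    Continuous (xp a c s T E) := by
  unfold xp
  have h1 : ∀ u, Continuous (fun y => ph (fn a u y)) := fun u => ph_cont.comp (fn_cont a u)
  have h2 : ∀ v, Continuous (fun y => ph (s v * fn a v y)) := fun v =>
    ph_cont.comp (continuous_const.mul (fn_cont a v))
  exact (continuous_const.mul (continuous_finsetSum _ fun u _ => h1 u)).sub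
    (continuous_finsetSum _ fun v _ => h2 v)

omit [Fintype V] in
theorem wt_cont (a : V → R → ℝ) (b c : ℝ) (lam : R → ℝ) (s : V → ℝ) (T E : Finset V) :
    Continuous (wt a b c lam s T E) := by
  have h1 : wt a b c lam s T E = fun y => (∏ S, lam S / J0) * Real.exp (- GG a b c lam s T E y) := by
    funext y; exact wt_eq a b c lam s T E y
  rw [h1]
  have h2 : Continuous (fun y : R → ℝ => GG a b c lam s T E y) := by
    unfold GG
    refine (continuous_const.mul (continuous_finsetSum _ fun S _ => ?_)).sub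
      (continuous_const.mul (xp_cont a c s T E))
    exact ps_cont.comp (continuous_const.mul (continuous_apply S))
  exact continuous_const.mul (Real.continuous_exp.comp h2.neg)

omit [Fintype V] in
theorem ph_wt_int (a : V → R → ℝ) (b c : ℝ) (lam : R → ℝ) (s : V → ℝ) (T E : Finset V)
    (hI : Integrable (wt a b c lam s T E)) (u : V) :
    Integrable (fun y => ph (fn a u y) * wt a b c lam s T E y) := by
  refine hI.mono ((ph_cont.comp (fn_cont a u)).mul (wt_cont a b c lam s T E)).aestronglyMeasurable ?_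
  refine Filter.Eventually.of_forall fun y => ?_
  rw [norm_mul, Real.norm_of_nonneg (ph_nonneg _)]
  exact mul_le_of_le_one_left (norm_nonneg _) (ph_le_one _)

theorem st_dom (hr : ST_RAT) (hi : Pool.Agent.Helper90.KOM.ST_INT) : Pool.Agent.Helper90.KOM.ST_DOM := by
  intro V R _ _ a b c lam s T E hb hc hlam hH
  obtain ⟨hI, hZ, -⟩ := hi V R a b c lam s T E hb.le hc hlam
  have hK0 : 0 ≤ ∏ S, lam S / J0 := by
    by_contra hcon
    push Not at hcon
    have : ZZ a b c lam s T E ≤ 0 := by
      unfold ZZ
      apply integral_nonpos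
      intro y
      show wt a b c lam s T E y ≤ 0
      rw [wt_eq]
      exact mul_nonpos_of_nonpos_of_nonneg hcon.le (Real.exp_pos _).le
    linarith
  have hPI := ph_wt_int a b c lam s T E hI
  -- the integral of the majorant
  have hU : ∀ h : R → ℝ, Integrable (fun y => wt a b c lam s T E y * UU a b c lam s T E h y) ∧
      ∫ y, wt a b c lam s T E y * UU a b c lam s T E h y =
      (4 * ∑ S, ps (lam S * h S) + 2 * b * ∑ v ∈ T, ph (s v * fn a v h)) * ZZ a b c lam s T E
      - 2 * b * c * ∑ u ∈ E, ph (fn a u h) *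
        (ZZ a b c lam s T E - 6 * ∫ y, ph (fn a u y) * wt a b c lam s T E y) := by
    intro h
    have e : (fun y => wt a b c lam s T E y * UU a b c lam s T E h y) =
        fun y => (4 * ∑ S, ps (lam S * h S) + 2 * b * ∑ v ∈ T, ph (s v * fn a v h)) *
          wt a b c lam s T E y - 2 * b * c * ∑ u ∈ E, (ph (fn a u h) * (wt a b c lam s T E y
            - 6 * (ph (fn a u y) * wt a b c lam s T E y))) := by
      funext y
      unfold UU
      have : ∑ u ∈ E, (ph (fn a u h) * (wt a b c lam s T E y
            - 6 * (ph (fn a u y) * wt a b c lam s T E y))) =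
          (∑ u ∈ E, ph (fn a u h) * (1 - 6 * ph (fn a u y))) * wt a b c lam s T E y := by
        rw [Finset.sum_mul]
        exact Finset.sum_congr rfl fun u _ => by ring
      rw [this]
      ring
    have i1 : ∀ u ∈ E, Integrable (fun y => ph (fn a u h) * (wt a b c lam s T E y
            - 6 * (ph (fn a u y) * wt a b c lam s T E y))) := fun u _ =>
      (hI.sub ((hPI u).const_mul 6)).const_mul _
    have i2 := (integrable_finsetSum E i1)
    rw [e]
    refine ⟨(hI.const_mul _).sub (i2.const_mul _), ?_⟩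
    rw [integral_sub (hI.const_mul _) (i2.const_mul _), integral_const_mul, integral_const_mul,
      integral_finsetSum E i1]
    congr 2
    apply Finset.sum_congr rfl
    intro u _
    rw [integral_const_mul, integral_sub hI ((hPI u).const_mul 6), integral_const_mul]
    rfl
  -- domination in the basic form
  have hD : ∀ h : R → ℝ, b * c * (47 / 50) * ∑ u ∈ E, ph (fn a u h) ≤
      2 * ∑ S, ps (lam S * h S) + b * ∑ v ∈ T, ph (s v * fn a v h) := by
    intro h
    have hsh : ∫ y, wt a b c lam s T E y * (2 - UU a b c lam s T E h y) ≤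
        ∫ y, (wt a b c lam s T E (y + h) + wt a b c lam s T E (y - h)) := by
      apply integral_mono
      · have : (fun y => wt a b c lam s T E y * (2 - UU a b c lam s T E h y)) =
            fun y => 2 * wt a b c lam s T E y - wt a b c lam s T E y * UU a b c lam s T E h y := by
          funext y; ring
        rw [this]
        exact (hI.const_mul 2).sub (hU h).1
      · exact (hI.comp_add_right h).add (hI.comp_sub_right h)
      · intro y
        exact wt_shift hr a b c lam s T E hb.le hc hK0 h y
    rw [integral_add (hI.comp_add_right h) (hI.comp_sub_right h),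
      integral_add_right_eq_self (fun y => wt a b c lam s T E y) h,
      integral_sub_right_eq_self (fun y => wt a b c lam s T E y) h] at hsh
    have e2 : ∫ y, wt a b c lam s T E y * (2 - UU a b c lam s T E h y) =
        2 * ZZ a b c lam s T E - ∫ y, wt a b c lam s T E y * UU a b c lam s T E h y := by
      have : (fun y => wt a b c lam s T E y * (2 - UU a b c lam s T E h y)) =
            fun y => 2 * wt a b c lam s T E y - wt a b c lam s T E y * UU a b c lam s T E h y := by
        funext y; ring
      rw [this, integral_sub (hI.const_mul 2) (hU h).1, integral_const_mul]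
      rfl
    rw [e2, (hU h).2] at hsh
    have hZd : ∫ y, wt a b c lam s T E y = ZZ a b c lam s T E := rfl
    rw [hZd] at hsh
    have h3 : ∑ u ∈ E, ph (fn a u h) * (47 / 50 * ZZ a b c lam s T E) ≤ ∑ u ∈ E, ph (fn a u h) *
        (ZZ a b c lam s T E - 6 * ∫ y, ph (fn a u y) * wt a b c lam s T E y) := by
      apply Finset.sum_le_sum
      intro u hu
      apply mul_le_mul_of_nonneg_left _ (ph_nonneg _)
      have := hH u hu
      unfold Happy at this
      linarith
    have h4 := mul_le_mul_of_nonneg_left h3 (show 0 ≤ 2 * b * c by positivity)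
    rw [← Finset.sum_mul] at h4
    have h5 : b * c * (47 / 50) * (∑ u ∈ E, ph (fn a u h)) * (2 * ZZ a b c lam s T E) ≤
        (2 * ∑ S, ps (lam S * h S) + b * ∑ v ∈ T, ph (s v * fn a v h)) * (2 * ZZ a b c lam s T E) := by
      nlinarith
    exact le_of_mul_le_mul_right h5 (by positivity)
  have hbc : 0 ≤ b * c := by positivity
  refine ⟨fun y => ?_, ?_⟩
  · have h1 := hD y
    have h2 : 0 ≤ ∑ u ∈ E, ph (fn a u y) := Finset.sum_nonneg fun u _ => ph_nonneg _
    have h3 : b * c / 2 * ∑ u ∈ E, ph (fn a u y) ≤ b * c * (47 / 50) * ∑ u ∈ E, ph (fn a u y) :=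
      mul_le_mul_of_nonneg_right (by linarith) h2
    linarith
  · -- leverage
    intro u hu
    have key : ∀ h : R → ℝ, 1 ≤ |fn a u h| →
        1 ≤ 2 * ∑ S, ps (lam S * h S) + b * ∑ v ∈ T, ph (s v * fn a v h) := by
      intro h hh
      set m := 2 * ∑ S, ps (lam S * h S) + b * ∑ v ∈ T, ph (s v * fn a v h) with hm
      have hgeo : ∫ y, Real.exp (-m) * (wt a b c lam s T E y * (1 + m - UU a b c lam s T E h y / 2)) ≤
          ∫ y, (7 * (ph (fn a u (y + h)) * wt a b c lam s T E (y + h) +
            ph (fn a u (y - h)) * wt a b c lam s T E (y - h)) +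
            (wt a b c lam s T E (y + h) + wt a b c lam s T E (y - h)) / 14) := by
        apply integral_mono
        · have : (fun y => Real.exp (-m) * (wt a b c lam s T E y *
              (1 + m - UU a b c lam s T E h y / 2))) = fun y => Real.exp (-m) *
              ((1 + m) * wt a b c lam s T E y - 1 / 2 * (wt a b c lam s T E y *
                UU a b c lam s T E h y)) := by
            funext y; ring
          rw [this]
          exact ((hI.const_mul _).sub ((hU h).1.const_mul _)).const_mul _
        · exact ((((hPI u).comp_add_right h).add ((hPI u).comp_sub_right h)).const_mul 7).add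
            (((hI.comp_add_right h).add (hI.comp_sub_right h)).div_const 14)
        · intro y
          exact wt_geo hr a b c lam s T E hb.le hc hK0 h y m u hh
      have e1 : ∫ y, Real.exp (-m) * (wt a b c lam s T E y * (1 + m - UU a b c lam s T E h y / 2)) =
          Real.exp (-m) * ((1 + m) * ZZ a b c lam s T E -
            1 / 2 * ∫ y, wt a b c lam s T E y * UU a b c lam s T E h y) := by
        have : (fun y => Real.exp (-m) * (wt a b c lam s T E y *
              (1 + m - UU a b c lam s T E h y / 2))) = fun y => Real.exp (-m) *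
              ((1 + m) * wt a b c lam s T E y - 1 / 2 * (wt a b c lam s T E y *
                UU a b c lam s T E h y)) := by
            funext y; ring
        rw [this, integral_const_mul, integral_sub (hI.const_mul _) ((hU h).1.const_mul _),
          integral_const_mul, integral_const_mul]
        rfl
      have e2 : ∫ y, (7 * (ph (fn a u (y + h)) * wt a b c lam s T E (y + h) +
            ph (fn a u (y - h)) * wt a b c lam s T E (y - h)) +
            (wt a b c lam s T E (y + h) + wt a b c lam s T E (y - h)) / 14) =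
          14 * (∫ y, ph (fn a u y) * wt a b c lam s T E y) + ZZ a b c lam s T E / 7 := by
        have j1 := (hPI u).comp_add_right h
        have j2 := (hPI u).comp_sub_right h
        have j3 := hI.comp_add_right h
        have j4 := hI.comp_sub_right h
        have j12 : Integrable (fun t => ph (fn a u (t + h)) * wt a b c lam s T E (t + h) +
            ph (fn a u (t - h)) * wt a b c lam s T E (t - h)) := j1.add j2
        have j34 : Integrable (fun t => wt a b c lam s T E (t + h) + wt a b c lam s T E (t - h)) :=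
          j3.add j4
        rw [integral_add (j12.const_mul 7) (j34.div_const 14), integral_const_mul,
          integral_add j1 j2, integral_div, integral_add j3 j4,
          integral_add_right_eq_self (fun y => ph (fn a u y) * wt a b c lam s T E y) h,
          integral_sub_right_eq_self (fun y => ph (fn a u y) * wt a b c lam s T E y) h,
          integral_add_right_eq_self (fun y => wt a b c lam s T E y) h,
          integral_sub_right_eq_self (fun y => wt a b c lam s T E y) h]
        have hZd : ∫ y, wt a b c lam s T E y = ZZ a b c lam s T E := rfl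
        rw [hZd]
        ring
      rw [e1, e2, (hU h).2] at hgeo
      have h3 : 0 ≤ ∑ u ∈ E, ph (fn a u h) *
          (ZZ a b c lam s T E - 6 * ∫ y, ph (fn a u y) * wt a b c lam s T E y) := by
        apply Finset.sum_nonneg
        intro w hw
        apply mul_nonneg (ph_nonneg _)
        have := hH w hw
        unfold Happy at this
        linarith
      have h4 : Real.exp (-m) * ZZ a b c lam s T E ≤ 14 * (1 / 100 * ZZ a b c lam s T E)
          + ZZ a b c lam s T E / 7 := by
        have h5 := hH u hu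
        unfold Happy at h5
        have h6 : ZZ a b c lam s T E ≤ (1 + m) * ZZ a b c lam s T E -
            1 / 2 * ((4 * ∑ S, ps (lam S * h S) + 2 * b * ∑ v ∈ T, ph (s v * fn a v h)) *
              ZZ a b c lam s T E - 2 * b * c * ∑ u ∈ E, ph (fn a u h) *
              (ZZ a b c lam s T E - 6 * ∫ y, ph (fn a u y) * wt a b c lam s T E y)) := by
          have h7 := mul_nonneg hbc h3
          rw [hm]
          nlinarith
        have h8 := mul_le_mul_of_nonneg_left h6 (Real.exp_pos (-m)).le
        linarith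
      have h9 : Real.exp (-m) < Real.exp (-1) := by
        have h10 : Real.exp (-m) * ZZ a b c lam s T E ≤ (14 / 100 + 1 / 7) * ZZ a b c lam s T E := by
          linarith
        have h11 := le_of_mul_le_mul_right h10 hZ
        have h12 : (1 : ℝ) / 3 < Real.exp (-1) := by
          rw [Real.exp_neg, ← one_div]
          apply one_div_lt_one_div_of_lt (Real.exp_pos _)
          have := Real.exp_one_lt_d9
          linarith
        linarith
      have := Real.exp_lt_exp.mp h9
      linarith
    intro y
    by_cases hy : fn a u y = 0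
    · rw [hy]
      have h1 : 0 ≤ ∑ S, (lam S * y S) ^ 2 := Finset.sum_nonneg fun S _ => sq_nonneg _
      have h2 : 0 ≤ ∑ v ∈ T, (s v * fn a v y) ^ 2 := Finset.sum_nonneg fun v _ => sq_nonneg _
      have h3 := mul_nonneg hb.le h2
      nlinarith
    · set r := (fn a u y)⁻¹ with hrr
      have h1 := key (fun S => r * y S) (by
        rw [fn_smul, hrr, inv_mul_cancel₀ hy, abs_one])
      have h2 : ∑ S, ps (lam S * (r * y S)) ≤ r ^ 2 * ∑ S, (lam S * y S) ^ 2 := by
        rw [Finset.mul_sum]
        apply Finset.sum_le_sum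
        intro S _
        have := ps_le_sq (lam S * (r * y S))
        calc _ ≤ (lam S * (r * y S)) ^ 2 := this
          _ = _ := by ring
      have h3 : ∑ v ∈ T, ph (s v * fn a v (fun S => r * y S)) ≤ r ^ 2 * ∑ v ∈ T, (s v * fn a v y) ^ 2 := by
        rw [Finset.mul_sum]
        apply Finset.sum_le_sum
        intro v _
        rw [fn_smul]
        calc _ ≤ (s v * (r * fn a v y)) ^ 2 := ph_le_sq _
          _ = _ := by ring
      have h4 : 1 ≤ r ^ 2 * (2 * ∑ S, (lam S * y S) ^ 2 + b * ∑ v ∈ T, (s v * fn a v y) ^ 2) := by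
        have := mul_le_mul_of_nonneg_left h3 hb.le
        nlinarith
      have h5 : (fn a u y) ^ 2 * 1 ≤ (fn a u y) ^ 2 * (r ^ 2 * (2 * ∑ S, (lam S * y S) ^ 2 +
          b * ∑ v ∈ T, (s v * fn a v y) ^ 2)) := mul_le_mul_of_nonneg_left h4 (sq_nonneg _)
      have h6 : (fn a u y) ^ 2 * r ^ 2 = 1 := by
        rw [← mul_pow, hrr, mul_inv_cancel₀ hy, one_pow]
      rw [← mul_assoc, h6] at h5
      linarith

end Pool.Agent.Helper66.KF
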