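import Pool.Agent.Helper66.KF.All

/-!
# The Komlos theorem with prescribed means
-/

namespace Pool.Agent.Helper66.KF

open Finset
open scoped Classical

/-- signs near a prescribed vector -/
theorem komlos_linear :
    ∃ C : ℝ, 0 < C ∧ ∀ (n m : ℕ) (A : Fin m → Fin n → ℝ) (t : ℝ), 0 ≤ t →
      (∀ i, ∑ j, A j i ^ 2 ≤ t) → ∀ z : Fin n → ℝ, (∀ i, |z i| ≤ 1) →
        ∃ χ : Fin n → ℤ, (∀ i, χ i = 1 ∨ χ i = -1) ∧
          ∀ j, |∑ i, A j i * ((χ i : ℝ) - z i)| ≤ C * Real.sqrt t := by
  obtain ⟨K, hK, hkom⟩ := komlos
  refine ⟨2 * K + 1, by linarith, ?_⟩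
  intro n m A t ht hA z hz
  rcases eq_or_lt_of_le ht with ht0 | htpos
  · -- the zero matrix
    refine ⟨fun _ => 1, fun _ => Or.inl rfl, ?_⟩
    intro j
    have hz0 : ∀ i, A j i = 0 := by
      intro i
      have h1 : ∑ j, A j i ^ 2 ≤ 0 := by
        rw [ht0]
        exact hA i
      have h2 : A j i ^ 2 ≤ ∑ j, A j i ^ 2 :=
        Finset.single_le_sum (f := fun j => A j i ^ 2) (fun k _ => sq_nonneg (A k i))
          (Finset.mem_univ j)
      have h3 : A j i ^ 2 ≤ 0 := h2.trans h1
      exact pow_eq_zero_iff (two_ne_zero) |>.mp (le_antisymm h3 (sq_nonneg _))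
    have h4 : ∑ i, A j i * (((1 : ℤ) : ℝ) - z i) = 0 :=
      Finset.sum_eq_zero fun i _ => by rw [hz0 i, zero_mul]
    rw [h4, abs_zero]
    positivity
  · have hs : 0 < Real.sqrt t := Real.sqrt_pos.mpr htpos
    have hsq : Real.sqrt t ^ 2 = t := Real.sq_sqrt ht
    set a : Fin n → Fin m → ℝ := fun v S => A S v / Real.sqrt t with ha
    set B : ℝ := 1 + ∑ v, ∑ S, |a v S| with hB
    have hB1 : 1 ≤ B := by
      have : 0 ≤ ∑ v, ∑ S, |a v S| :=
        Finset.sum_nonneg fun v _ => Finset.sum_nonneg fun S _ => abs_nonneg _
      linarith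
    have hB0 : 0 < B := by linarith
    have hcol : ∀ v, ∑ S, a v S ^ 2 ≤ 1 := by
      intro v
      have h1 : ∑ S, a v S ^ 2 = (∑ S, A S v ^ 2) / t := by
        rw [Finset.sum_div]
        refine Finset.sum_congr rfl fun S _ => ?_
        rw [ha]
        simp only
        rw [div_pow, hsq]
      rw [h1, div_le_one htpos]
      exact hA v
    let f : Fin n → (Fin m × Bool) → ℝ := fun v y => (if y.2 then (1 : ℝ) else -1) * a v y.1
    have hb := Helper25.KF.st_bits2 (Fin n) (Fin m × Bool) f (fun _ => K) (1 / (4 * B)) univ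
      (by positivity) (fun _ => hK.le) (by
        intro E' _
        have h1 : ∀ v, ∑ S, (if v ∈ E' then a v S else 0) ^ 2 ≤ 1 := by
          intro v
          by_cases hv : v ∈ E'
          · simp only [hv, if_true]
            exact hcol v
          · simp [hv]
        obtain ⟨x, hx, hrow⟩ := hkom (Fin n) (Fin m) (fun v S => if v ∈ E' then a v S else 0) h1
        refine ⟨x, hx, ?_⟩
        intro y
        have h2 : ∑ u ∈ E', x u * f u y
            = (if y.2 then (1 : ℝ) else -1) * ∑ v, x v * (if v ∈ E' then a v y.1 else 0) := by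
          rw [Finset.mul_sum]
          have h3 : ∀ v, (if y.2 then (1 : ℝ) else -1) * (x v * (if v ∈ E' then a v y.1 else 0))
              = if v ∈ E' then x v * f v y else 0 := by
            intro v
            by_cases hv : v ∈ E'
            · simp only [hv, if_true, f]
              ring
            · simp [hv]
          rw [Finset.sum_congr rfl fun v _ => h3 v, ← Finset.sum_filter]
          congr 1
          ext v
          simp
        have h4 : ∑ u ∈ E', x u * f u y ≤ K := by
          rw [h2]
          have h5 := abs_le.mp (hrow y.1)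
          by_cases hy : y.2 = true
          · rw [if_pos hy]
            linarith [h5.2]
          · rw [if_neg hy]
            linarith [h5.1]
        have h6 : 0 ≤ 1 / (4 * B) * ∑ u ∈ E', |f u y| :=
          mul_nonneg (by positivity) (Finset.sum_nonneg fun _ _ => abs_nonneg _)
        linarith) z hz
    obtain ⟨x, hx, hxy⟩ := hb
    have hup : ∀ y : Fin m × Bool, ∑ u, (x u - z u) * f u y ≤ 2 * K + 1 := by
      intro y
      have h1 := hxy y
      have h2 : ∑ u, |f u y| ≤ B := by
        have h3 : ∀ u, |f u y| ≤ ∑ S, |a u S| := by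
          intro u
          have h4 : |f u y| = |a u y.1| := by
            simp only [f]
            rw [abs_mul]
            by_cases hy : y.2 = true
            · rw [if_pos hy, abs_one, one_mul]
            · rw [if_neg hy, abs_neg, abs_one, one_mul]
          rw [h4]
          exact Finset.single_le_sum (f := fun S => |a u S|) (fun S _ => abs_nonneg _)
            (Finset.mem_univ y.1)
        have h5 : ∑ u, |f u y| ≤ ∑ u, ∑ S, |a u S| := Finset.sum_le_sum fun u _ => h3 u
        linarith
      have h6 : 4 * (1 / (4 * B)) * ∑ u, |f u y| ≤ 1 := by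
        have h7 : 4 * (1 / (4 * B)) * ∑ u, |f u y| = (∑ u, |f u y|) / B := by
          field_simp
        rw [h7, div_le_one hB0]
        exact h2
      linarith
    refine ⟨fun i => if x i = 1 then 1 else -1, ?_, ?_⟩
    · intro i
      by_cases hi : x i = 1
      · left; simp [hi]
      · right; simp [hi]
    · intro j
      have hcast : ∀ i, (((if x i = 1 then (1 : ℤ) else -1) : ℤ) : ℝ) = x i := by
        intro i
        rcases hx i with hi | hi
        · simp [hi]
        · have hne : ¬ ((-1 : ℝ) = 1) := by norm_num
          simp [hi, hne]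
      have hsum : ∑ i, A j i * ((((if x i = 1 then (1 : ℤ) else -1) : ℤ) : ℝ) - z i)
          = Real.sqrt t * ∑ u, (x u - z u) * a u j := by
        rw [Finset.mul_sum]
        refine Finset.sum_congr rfl fun i _ => ?_
        rw [hcast i, ha]
        simp only
        field_simp
      have h1 := hup (j, true)
      have h2 := hup (j, false)
      have e1 : ∑ u, (x u - z u) * f u (j, true) = ∑ u, (x u - z u) * a u j :=
        Finset.sum_congr rfl fun u _ => by simp [f]
      have e2 : ∑ u, (x u - z u) * f u (j, false) = -∑ u, (x u - z u) * a u j := by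
        rw [← Finset.sum_neg_distrib]
        exact Finset.sum_congr rfl fun u _ => by simp [f]
      rw [e1] at h1
      rw [e2] at h2
      rw [hsum, abs_mul, abs_of_pos hs, mul_comm (2 * K + 1)]
      apply mul_le_mul_of_nonneg_left _ hs.le
      rw [abs_le]
      constructor <;> linarith

end Pool.Agent.Helper66.KF
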