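import Pool.Agent.Helper66.KF.Core
import Pool.Agent.Helper3.ZS.Rec

/-!
# Comparison of the profiles of two vectors which are close in `l2`
-/

namespace Pool.Agent.Helper66.KF

open Finset Pool.Agent.Helper38.ZS
open scoped Classical

noncomputable section

variable {ι : Type}

theorem nu_pt {x y γ : ℝ} (hγ : 0 < γ) (hγ1 : γ ≤ 1) (hy : γ ≤ |y|) :
    |y| ^ (19 / 20 : ℝ) ≤ 2 * (if γ / 2 ≤ |x| then |x| ^ (19 / 20 : ℝ) else 0)
      + 8 / γ ^ 2 * (y - x) ^ 2 := by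
  have hy0 : 0 < |y| := by linarith
  have hq : 0 ≤ 8 / γ ^ 2 * (y - x) ^ 2 := by positivity
  by_cases h : |y - x| ≤ |y| / 2
  · have h1 : |y| - |x| ≤ |y - x| := abs_sub_abs_le_abs_sub y x
    have h2 : γ / 2 ≤ |x| := by linarith
    have h3 : |y| ≤ 2 * |x| := by linarith
    rw [if_pos h2]
    have h4 : |y| ^ (19 / 20 : ℝ) ≤ (2 * |x|) ^ (19 / 20 : ℝ) :=
      Real.rpow_le_rpow hy0.le h3 (by norm_num)
    have h5 : (2 * |x|) ^ (19 / 20 : ℝ) = 2 ^ (19 / 20 : ℝ) * |x| ^ (19 / 20 : ℝ) :=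
      Real.mul_rpow (by norm_num) (abs_nonneg x)
    have h6 : (2 : ℝ) ^ (19 / 20 : ℝ) ≤ 2 := by
      have := Real.rpow_le_rpow_of_exponent_le (by norm_num : (1 : ℝ) ≤ 2)
        (by norm_num : (19 / 20 : ℝ) ≤ 1)
      rwa [Real.rpow_one] at this
    have h7 : 0 ≤ |x| ^ (19 / 20 : ℝ) := Real.rpow_nonneg (abs_nonneg x) _
    have h8 := mul_le_mul_of_nonneg_right h6 h7
    linarith
  · push Not at h
    have h1 : |y| ^ (19 / 20 : ℝ) ≤ y ^ 2 / γ ^ 2 := by
      rw [le_div_iff₀ (by positivity)]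
      by_cases h2 : 1 ≤ |y|
      · have h3 : |y| ^ (19 / 20 : ℝ) ≤ |y| ^ (2 : ℝ) :=
          Real.rpow_le_rpow_of_exponent_le h2 (by norm_num)
        rw [Real.rpow_two, sq_abs] at h3
        have h4 : γ ^ 2 ≤ 1 := by nlinarith
        have h5 : 0 ≤ |y| ^ (19 / 20 : ℝ) := Real.rpow_nonneg hy0.le _
        nlinarith
      · push Not at h2
        have h3 : |y| ^ (19 / 20 : ℝ) ≤ 1 := Real.rpow_le_one hy0.le h2.le (by norm_num)
        have h4 : γ ^ 2 ≤ y ^ 2 := by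
          rw [← sq_abs y]
          exact pow_le_pow_left₀ hγ.le hy 2
        have h5 : 0 ≤ |y| ^ (19 / 20 : ℝ) := Real.rpow_nonneg hy0.le _
        nlinarith [sq_nonneg γ]
    have h2 : y ^ 2 ≤ 4 * (y - x) ^ 2 := by
      have h3 : |y| ≤ 2 * |y - x| := by linarith
      have h4 := pow_le_pow_left₀ hy0.le h3 2
      rw [mul_pow, sq_abs, sq_abs] at h4
      linarith
    have h3 : y ^ 2 / γ ^ 2 ≤ 8 / γ ^ 2 * (y - x) ^ 2 := by
      rw [div_mul_eq_mul_div]
      apply div_le_div_of_nonneg_right _ (by positivity)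
      nlinarith [sq_nonneg (y - x)]
    have h4 : 0 ≤ 2 * (if γ / 2 ≤ |x| then |x| ^ (19 / 20 : ℝ) else 0) := by
      split_ifs
      · positivity
      · simp
    linarith

theorem nu_trans (X : Finset ι) (g g' : ι → ℝ) {γ : ℝ} (hγ : 0 < γ) (hγ1 : γ ≤ 1) :
    nu g' (X.filter (fun i => γ ≤ |g' i|)) ≤ 2 * nu g (X.filter (fun i => γ / 2 ≤ |g i|))
      + 8 / γ ^ 2 * ∑ i ∈ X, (g' i - g i) ^ 2 := by
  unfold nu
  rw [Finset.sum_filter, Finset.sum_filter, Finset.mul_sum, Finset.mul_sum,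
    ← Finset.sum_add_distrib]
  apply Finset.sum_le_sum
  intro i _
  by_cases h : γ ≤ |g' i|
  · rw [if_pos h]
    exact nu_pt hγ hγ1 h
  · rw [if_neg h]
    have h1 : 0 ≤ 8 / γ ^ 2 * (g' i - g i) ^ 2 := by positivity
    have h4 : 0 ≤ 2 * (if γ / 2 ≤ |g i| then |g i| ^ (19 / 20 : ℝ) else 0) := by
      split_ifs
      · positivity
      · simp
    linarith

theorem sm_trans (X : Finset ι) (g g' : ι → ℝ) {γ : ℝ} :
    ∑ i ∈ X.filter (fun i => |g' i| < γ), g' i ^ 2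
      ≤ 2 * ∑ i ∈ X.filter (fun i => |g i| < 2 * γ), g i ^ 2
      + 2 * ∑ i ∈ X, (g' i - g i) ^ 2 := by
  rw [Finset.sum_filter, Finset.sum_filter, Finset.mul_sum, Finset.mul_sum,
    ← Finset.sum_add_distrib]
  apply Finset.sum_le_sum
  intro i _
  by_cases h : |g' i| < γ
  · rw [if_pos h]
    by_cases h2 : |g i| < 2 * γ
    · rw [if_pos h2]
      nlinarith [sq_nonneg (g' i - 2 * g i)]
    · rw [if_neg h2]
      push Not at h2
      have h3 : |g i| - |g' i| ≤ |g i - g' i| := abs_sub_abs_le_abs_sub _ _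
      have h4 : |g' i| ≤ |g i - g' i| := by linarith
      have h5 := pow_le_pow_left₀ (abs_nonneg _) h4 2
      rw [sq_abs, sq_abs] at h5
      nlinarith [sq_nonneg (g' i - g i)]
  · rw [if_neg h]
    have h1 : 0 ≤ 2 * (if |g i| < 2 * γ then g i ^ 2 else 0) := by
      split_ifs
      · positivity
      · simp
    have h2 : 0 ≤ 2 * (g' i - g i) ^ 2 := by positivity
    linarith

theorem card_trans (X : Finset ι) (g g' : ι → ℝ) :
    (#(X.filter (fun i => 1 / 2 ≤ |g' i|)) : ℝ) ≤ (#(X.filter (fun i => 1 / 4 ≤ |g i|)) : ℝ)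
      + 16 * ∑ i ∈ X, (g' i - g i) ^ 2 := by
  rw [Finset.card_filter, Finset.card_filter]
  push_cast
  rw [Finset.mul_sum, ← Finset.sum_add_distrib]
  apply Finset.sum_le_sum
  intro i _
  have h0 : 0 ≤ 16 * (g' i - g i) ^ 2 := by positivity
  by_cases h : 1 / 2 ≤ |g' i|
  · rw [if_pos h]
    by_cases h2 : 1 / 4 ≤ |g i|
    · rw [if_pos h2]
      linarith
    · rw [if_neg h2]
      push Not at h2
      have h3 : |g' i| - |g i| ≤ |g' i - g i| := abs_sub_abs_le_abs_sub _ _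
      have h4 : 1 / 4 ≤ |g' i - g i| := by linarith
      have h5 := pow_le_pow_left₀ (by norm_num) h4 2
      rw [sq_abs] at h5
      norm_num at h5
      linarith
  · rw [if_neg h]
    split_ifs <;> linarith

theorem TT_pt {x y a : ℝ} (ha : 0 < a) :
    |TT y - TT x| ≤ a * (if 1 / 2 ≤ |x| then 1 else 0) + (1 / (4 * a) + 2) * (y - x) ^ 2 := by
  have hl : |TT y - TT x| ≤ |y - x| := Pool.Agent.Helper3.ZS.TT_lip y x
  have hsq : 0 ≤ (y - x) ^ 2 := sq_nonneg _
  have ha4 : 0 < 1 / (4 * a) := by positivity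
  by_cases h : 1 / 2 ≤ |x|
  · rw [if_pos h]
    have h1 : |y - x| ≤ a + 1 / (4 * a) * (y - x) ^ 2 := by
      have h2 : 0 ≤ (2 * a - |y - x|) ^ 2 := sq_nonneg _
      have h3 : |y - x| ^ 2 = (y - x) ^ 2 := sq_abs _
      have h4 : a + 1 / (4 * a) * (y - x) ^ 2 - |y - x| = (2 * a - |y - x|) ^ 2 / (4 * a) := by
        rw [← h3]
        field_simp
        ring
      have h5 : 0 ≤ (2 * a - |y - x|) ^ 2 / (4 * a) := by positivity
      linarith
    nlinarith
  · rw [if_neg h]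
    push Not at h
    by_cases h2 : |y| ≤ 1
    · rw [TT_small h2, TT_small (by linarith), sub_zero, abs_zero]
      positivity
    · push Not at h2
      have h3 : |y| - |x| ≤ |y - x| := abs_sub_abs_le_abs_sub _ _
      have h4 : 1 / 2 ≤ |y - x| := by linarith
      have h5 : |y - x| ≤ 2 * (y - x) ^ 2 := by
        rw [← sq_abs (y - x)]
        nlinarith
      nlinarith

theorem TT_trans (X : Finset ι) (g g' : ι → ℝ) {a : ℝ} (ha : 0 < a) :
    ∑ i ∈ X, |TT (g' i) - TT (g i)| ≤ a * (#(X.filter (fun i => 1 / 2 ≤ |g i|)) : ℝ)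
      + (1 / (4 * a) + 2) * ∑ i ∈ X, (g' i - g i) ^ 2 := by
  rw [Finset.card_filter]
  push_cast
  rw [Finset.mul_sum, Finset.mul_sum, ← Finset.sum_add_distrib]
  apply Finset.sum_le_sum
  intro i _
  exact TT_pt ha

end

end Pool.Agent.Helper66.KF
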